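import Mathlib
import Pool.Agent.H77.TF.Def

/-!
# Project GS: minimal degrees of logarithmic fields of line arrangements. Definitions and statements
-/

set_option autoImplicit false

open MvPolynomial Module Pool.Agent.H77.TF

namespace Pool.Agent.H17.GS

/-- `r` is the least degree of a homogeneous logarithmic field which is not a multiple of the Euler field. -/
def IsMin {K : Type} [Field K] {ν : Type} (A : ν → Fin 3 → K) (r : ℕ) : Prop :=
  (∃ v ∈ LD A, (∀ j, (v j).IsHomogeneous r) ∧ ∃ i j, X i * v j ≠ X j * v i) ∧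
    ∀ e < r, ∀ v ∈ LD A, (∀ j, (v j).IsHomogeneous e) → ∀ i j, X i * v j = X j * v i

/-- `v` is a Jacobian syzygy of `f = ∏ i, lin (A i)`: `∑ j, v j * ∂f / ∂X_j = 0`. -/
def IsSyz {K : Type} [Field K] {ν : Type} [Fintype ν] (A : ν → Fin 3 → K) (v : Fin 3 → MvPolynomial (Fin 3) K) :
    Prop :=
  ∑ j, v j * pderiv j (∏ i, lin (A i)) = 0

/-- `mdr`: `r` is the least degree of a nonzero homogeneous Jacobian syzygy of `f = ∏ i, lin (A i)`. -/
def IsMdr {K : Type} [Field K] {ν : Type} [Fintype ν] (A : ν → Fin 3 → K) (r : ℕ) : Prop :=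
  (∃ v, IsSyz A v ∧ (∀ j, (v j).IsHomogeneous r) ∧ v ≠ 0) ∧
    ∀ e < r, ∀ v, IsSyz A v → (∀ j, (v j).IsHomogeneous e) → v = 0

/-- EQV. Proof. `f = ∏ lin (A i)`, `v(f) = ∑ v_j ∂_j f = ∑_i (∏_{k ≠ i} lin (A k)) * evl (A i) v`.
(a) A nonzero homogeneous syzygy `v` of degree `e` is in `LD A`: `lin (A i)` divides all summands except the `i`-th one, so it divides
`(∏_{k ≠ i} lin (A k)) * evl (A i) v`, and it is a prime which does not divide the first factor (PRI, `pri`, Simple). It is no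
multiple of the Euler field: if `X i * v j = X j * v i` for all `i`, `j` then `X i * (∑_j v_j ∂_j f) = v_i * (∑_j X_j ∂_j f) = n v_i f` (Euler),
so `v_i = 0` as `n ≠ 0` in `K` and `f ≠ 0`.
(b) If `v ∈ LD A` is homogeneous of degree `e` and not a multiple of the Euler field, then `f ∣ v(f)`, `v(f) = g f`, `g` homogeneous of degree
`e - 1` (if `v(f) = 0` take `v` itself), and `w = v - (g / n) • X` is a syzygy, homogeneous of degree `e`, not `0`. -/
def S_EQV : Prop :=
  ∀ (K : Type) [Field K] [CharZero K] (n : ℕ) (A : Fin n → Fin 3 → K), Simple A → 1 ≤ n → ∀ e : ℕ,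
    ((∃ v, IsSyz A v ∧ (∀ j, (v j).IsHomogeneous e) ∧ v ≠ 0) ↔
      ∃ v ∈ LD A, (∀ j, (v j).IsHomogeneous e) ∧ ∃ i j, X i * v j ≠ X j * v i)

end Pool.Agent.H17.GS
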